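import Mathlib

/-! A functional whose critical points are the squares with two adjacent vertices on the graph of `f`
and the two others on the graph of `g`, and a mountain pass argument for it. -/

set_option autoImplicit false
open Set Topology Metric

namespace Pool.Agent.T2H16.SB

/-- the functional, in terms of primitives -/
noncomputable def E (F G : ℝ → ℝ) (x u v : ℝ) : ℝ :=
  F (x + u) - F x - G (x + u + v) + G (x + v) - u ^ 2 / 2 + v ^ 2 / 2

def gx (f g : ℝ → ℝ) (x u v : ℝ) : ℝ := f (x + u) - f x - g (x + u + v) + g (x + v)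
def gu (f g : ℝ → ℝ) (x u v : ℝ) : ℝ := f (x + u) - g (x + u + v) - u
def gv (g : ℝ → ℝ) (x u v : ℝ) : ℝ := - g (x + u + v) + g (x + v) + v

/-- square of the norm of the gradient -/
def S (f g : ℝ → ℝ) (x u v : ℝ) : ℝ := gx f g x u v ^ 2 + gu f g x u v ^ 2 + gv g x u v ^ 2

variable {f g F G : ℝ → ℝ}

theorem S_nonneg (x u v : ℝ) : 0 ≤ S f g x u v := by unfold S; positivity

theorem E_line (hF : ∀ x, HasDerivAt F (f x) x) (hG : ∀ x, HasDerivAt G (g x) x)
    (x u v α β γ s : ℝ) :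
    HasDerivAt (fun s : ℝ => E F G (x + s * α) (u + s * β) (v + s * γ))
      (gx f g (x + s * α) (u + s * β) (v + s * γ) * α +
        gu f g (x + s * α) (u + s * β) (v + s * γ) * β +
        gv g (x + s * α) (u + s * β) (v + s * γ) * γ) s := by
  have hx : HasDerivAt (fun s : ℝ => x + s * α) α s := by
    simpa using ((hasDerivAt_id s).mul_const α).const_add x
  have hu : HasDerivAt (fun s : ℝ => u + s * β) β s := by
    simpa using ((hasDerivAt_id s).mul_const β).const_add u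
  have hv : HasDerivAt (fun s : ℝ => v + s * γ) γ s := by
    simpa using ((hasDerivAt_id s).mul_const γ).const_add v
  have h1 := (hF (x + s * α + (u + s * β))).comp s (hx.add hu)
  have h2 := (hF (x + s * α)).comp s hx
  have h3 := (hG (x + s * α + (u + s * β) + (v + s * γ))).comp s ((hx.add hu).add hv)
  have h4 := (hG (x + s * α + (v + s * γ))).comp s (hx.add hv)
  have h5 := (hu.pow 2).div_const 2
  have h6 := (hv.pow 2).div_const 2
  have h := ((((h1.sub h2).sub h3).add h4).sub h5).add h6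
  unfold E gx gu gv
  refine (h.congr_deriv ?_)
  simp only [Nat.cast_ofNat]
  ring

theorem E_step (hF : ∀ x, HasDerivAt F (f x) x) (hG : ∀ x, HasDerivAt G (g x) x)
    {x u v α β γ ω : ℝ}
    (h : ∀ s ∈ Icc (0:ℝ) 1, |gx f g (x + s * α) (u + s * β) (v + s * γ) - gx f g x u v| ≤ ω ∧
      |gu f g (x + s * α) (u + s * β) (v + s * γ) - gu f g x u v| ≤ ω ∧
      |gv g (x + s * α) (u + s * β) (v + s * γ) - gv g x u v| ≤ ω) :
    E F G x u v + (gx f g x u v * α + gu f g x u v * β + gv g x u v * γ) -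
      ω * (|α| + |β| + |γ|) ≤ E F G (x + α) (u + β) (v + γ) := by
  obtain ⟨s, hs, e⟩ := exists_hasDerivAt_eq_slope
    (fun s : ℝ => E F G (x + s * α) (u + s * β) (v + s * γ)) _ (zero_lt_one (α := ℝ))
    (fun s _ => (E_line hF hG x u v α β γ s).continuousAt.continuousWithinAt)
    (fun s _ => E_line hF hG x u v α β γ s)
  simp only [one_mul, zero_mul, add_zero, sub_zero, div_one] at e
  obtain ⟨h1, h2, h3⟩ := h s ⟨hs.1.le, hs.2.le⟩
  have key : ∀ {p q r ω : ℝ}, |p - q| ≤ ω → q * r - ω * |r| ≤ p * r := by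
    intro p q r ω h
    have h4 := neg_abs_le ((p - q) * r)
    rw [abs_mul] at h4
    have h5 := mul_le_mul_of_nonneg_right h (abs_nonneg r)
    nlinarith
  have k1 := key (r := α) h1
  have k2 := key (r := β) h2
  have k3 := key (r := γ) h3
  linarith

/-- one ascent step -/
theorem ascent {A B C η ω t : ℝ} (hη : 0 < η) (hω : ω = η / 6) (ht : 0 ≤ t)
    (hS : η ^ 2 ≤ A ^ 2 + B ^ 2 + C ^ 2) :
    t * (η ^ 2 / (2 * (1 + η ^ 2))) ≤
      A * (t * (A / (1 + (A ^ 2 + B ^ 2 + C ^ 2)))) + B * (t * (B / (1 + (A ^ 2 + B ^ 2 + C ^ 2)))) +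
        C * (t * (C / (1 + (A ^ 2 + B ^ 2 + C ^ 2)))) -
      ω * (|t * (A / (1 + (A ^ 2 + B ^ 2 + C ^ 2)))| + |t * (B / (1 + (A ^ 2 + B ^ 2 + C ^ 2)))| +
        |t * (C / (1 + (A ^ 2 + B ^ 2 + C ^ 2)))|) := by
  obtain ⟨q, hq⟩ : ∃ q, q = A ^ 2 + B ^ 2 + C ^ 2 := ⟨_, rfl⟩
  rw [← hq] at hS ⊢
  have q0 : 0 ≤ q := by rw [hq]; positivity
  have q1 : 0 < 1 + q := by linarith
  have ab : ∀ A : ℝ, |t * (A / (1 + q))| = t * (|A| / (1 + q)) := by
    intro A
    rw [abs_mul, abs_div, abs_of_nonneg ht, abs_of_pos q1]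
  rw [ab, ab, ab]
  have e : A * (t * (A / (1 + q))) + B * (t * (B / (1 + q))) + C * (t * (C / (1 + q))) -
      ω * (t * (|A| / (1 + q)) + t * (|B| / (1 + q)) + t * (|C| / (1 + q))) =
      t * ((q - ω * (|A| + |B| + |C|)) / (1 + q)) := by
    rw [hq]; ring
  rw [e]
  refine mul_le_mul_of_nonneg_left ?_ ht
  have am : ∀ A : ℝ, η * |A| ≤ (η ^ 2 + A ^ 2) / 2 := by
    intro A
    have := sq_nonneg (η - |A|)
    have h2 := sq_abs A
    nlinarith
  have h1 : ω * (|A| + |B| + |C|) ≤ q / 2 := by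
    have a1 := am A
    have a2 := am B
    have a3 := am C
    rw [hω]; nlinarith
  calc η ^ 2 / (2 * (1 + η ^ 2)) ≤ q / (2 * (1 + q)) := by
        rw [div_le_div_iff₀ (by positivity) (by positivity)]
        nlinarith
    _ = (q / 2) / (1 + q) := by field_simp
    _ ≤ _ := by
        apply div_le_div_of_nonneg_right _ q1.le
        linarith

end Pool.Agent.T2H16.SB
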