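import Pool.Agent.T2H16.SB.PS

/-! Squares between two graphs: final form. -/

set_option autoImplicit false
open Set Topology Metric MeasureTheory

namespace Pool.Agent.T2H16.SB

/-- cut off -/
noncomputable def cut (x : ℝ) : ℝ := max 0 (min 1 x)

theorem cut_cont : Continuous cut := by unfold cut; fun_prop
theorem cut_mem (x : ℝ) : cut x ∈ Icc (0:ℝ) 1 := ⟨le_max_left _ _, max_le zero_le_one (min_le_left _ _)⟩
theorem cut0 {x : ℝ} (h : x ≤ 0) : cut x = 0 := max_eq_left ((min_le_right _ _).trans h)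
theorem cut1 {x : ℝ} (h : 1 ≤ x) : cut x = 1 := by
  unfold cut; rw [min_eq_left h]; exact max_eq_right zero_le_one
theorem cutm {x : ℝ} (h : x ∈ Icc (0:ℝ) 1) : cut x = x := by
  unfold cut; rw [min_eq_right h.2, max_eq_right h.1]

theorem cut_unif {f : ℝ → ℝ} (hf : ContinuousOn f (Icc 0 1)) : UniformContinuous fun x => f (cut x) := by
  have h1 := isCompact_Icc.uniformContinuousOn_of_continuous hf
  rw [Metric.uniformContinuousOn_iff] at h1
  rw [Metric.uniformContinuous_iff]
  intro ε hε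
  obtain ⟨δ, hδ, h⟩ := h1 ε hε
  refine ⟨δ, hδ, fun {a b} hab => h _ (cut_mem a) _ (cut_mem b) (lt_of_le_of_lt ?_ hab)⟩
  rw [Real.dist_eq, Real.dist_eq]
  unfold cut
  refine (abs_max_sub_max_le_max _ _ _ _).trans ?_
  rw [sub_self, abs_zero]
  refine max_le (abs_nonneg _) ?_
  refine (abs_min_sub_min_le_max _ _ _ _).trans ?_
  rw [sub_self, abs_zero]
  exact max_le (abs_nonneg _) le_rfl

/-- squares between two graphs -/
theorem bulge {f g : ℝ → ℝ} (hf : ContinuousOn f (Icc 0 1)) (hg : ContinuousOn g (Icc 0 1))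
    {k ε κ : ℝ} (k0 : 0 ≤ k) (k1 : k < 1) (e0 : 0 ≤ ε) (hκ : 18 * ε ^ 2 / (1 - k) ^ 2 ≤ κ)
    (hc : ∀ x ∈ Icc (0:ℝ) 1, |f x| ≤ ε + k * min x (1 - x) ∧ |g x| ≤ ε + k * min x (1 - x))
    {a b : ℝ} (ha : 0 ≤ a) (hab : a ≤ b) (hb : b ≤ 1)
    (h : ∀ v : ℝ, κ + ((b - a) ^ 2 - v ^ 2) / 2 < (∫ x in a..b, f x) -
      ∫ x in (a + v)..(b + v), g (cut x)) :
    ∃ x u v, x ∈ Icc (0:ℝ) 1 ∧ x + u ∈ Icc (0:ℝ) 1 ∧ x + v ∈ Icc (0:ℝ) 1 ∧
      x + u + v ∈ Icc (0:ℝ) 1 ∧ Crit f g x u v ∧
      κ < (2 * ε + k) * |u| + v ^ 2 / 2 - u ^ 2 / 2 := by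
  have uf := cut_unif hf
  have ug := cut_unif hg
  have cf := uf.continuous
  have cg := ug.continuous
  set f' : ℝ → ℝ := fun x => f (cut x) with hf'
  set g' : ℝ → ℝ := fun x => g (cut x) with hg'
  set F : ℝ → ℝ := fun x => ∫ t in (0:ℝ)..x, f' t with hF
  set G : ℝ → ℝ := fun x => ∫ t in (0:ℝ)..x, g' t with hG
  have b0 : ∀ x ∈ Icc (0:ℝ) 1, k * min x (1 - x) ≤ k / 2 := by
    intro x hx
    have : min x (1 - x) ≤ 1 / 2 := by
      rcases le_total x (1 / 2) with h | h
      · exact (min_le_left _ _).trans h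
      · exact (min_le_right _ _).trans (by linarith)
    nlinarith
  have bf : ∀ x, |f' x| ≤ ε + k / 2 := fun x =>
    (hc _ (cut_mem x)).1.trans (by linarith [b0 _ (cut_mem x)])
  have bg : ∀ x, |g' x| ≤ ε + k / 2 := fun x =>
    (hc _ (cut_mem x)).2.trans (by linarith [b0 _ (cut_mem x)])
  have D : Dat f' g' F G (ε + k / 2) := ⟨cf, cg,
    fun x => intervalIntegral.integral_hasDerivAt_right (cf.intervalIntegrable _ _)
      (cf.stronglyMeasurableAtFilter _ _) cf.continuousAt,
    fun x => intervalIntegral.integral_hasDerivAt_right (cg.intervalIntegrable _ _)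
      (cg.stronglyMeasurableAtFilter _ _) cg.continuousAt, bf, bg, uf, ug⟩
  have l1 : ∀ y, min (cut y) (1 - cut y) ≤ max 0 y := by
    intro y
    rcases le_total y 0 with h | h
    · rw [cut0 h]; exact (min_le_left _ _).trans (le_max_left _ _)
    · refine (min_le_left _ _).trans ?_
      unfold cut
      exact max_le_max le_rfl (min_le_right _ _)
  have l2 : ∀ y, min (cut y) (1 - cut y) ≤ max 0 (1 - y) := by
    intro y
    refine (min_le_right _ _).trans ?_
    rcases le_total 1 y with h | h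
    · rw [cut1 h, sub_self]; exact le_max_left _ _
    · rcases le_total y 0 with h' | h'
      · rw [cut0 h']
        exact le_trans (by linarith) (le_max_right _ _)
      · rw [cutm ⟨h', h⟩]; exact le_max_right _ _
  have K : Cn f' g' k ε := ⟨k0, k1, e0, fun y hy => by simp only [hf']; rw [cut0 hy, cut0 le_rfl],
    fun y hy => by simp only [hg']; rw [cut0 hy, cut0 le_rfl],
    fun y hy => by simp only [hf']; rw [cut1 hy, cut1 le_rfl],
    fun y hy => by simp only [hg']; rw [cut1 hy, cut1 le_rfl],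
    fun y => (hc _ (cut_mem y)).1.trans (by linarith [mul_le_mul_of_nonneg_left (l1 y) k0]),
    fun y => (hc _ (cut_mem y)).2.trans (by linarith [mul_le_mul_of_nonneg_left (l1 y) k0]),
    fun y => (hc _ (cut_mem y)).1.trans (by linarith [mul_le_mul_of_nonneg_left (l2 y) k0]),
    fun y => (hc _ (cut_mem y)).2.trans (by linarith [mul_le_mul_of_nonneg_left (l2 y) k0])⟩
  have hσ : 18 * (ε / (1 - k)) ^ 2 ≤ κ := by rw [div_pow, ← mul_div_assoc]; exact hκ
  obtain ⟨x, u, v, hcr, hE⟩ := K.exists D (σ := ε / (1 - k)) rfl (x0 := a) (u0 := b - a) hσ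
    (fun v => by
      have h1 := h v
      have e1 : F b - F a = ∫ x in a..b, f x := by
        simp only [hF]
        rw [intervalIntegral.integral_interval_sub_left (cf.intervalIntegrable _ _)
          (cf.intervalIntegrable _ _)]
        refine intervalIntegral.integral_congr fun t ht => ?_
        rw [uIcc_of_le hab] at ht
        simp only [hf']
        rw [cutm ⟨by linarith [ht.1], by linarith [ht.2]⟩]
      have e2 : G (b + v) - G (a + v) = ∫ x in (a + v)..(b + v), g (cut x) := by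
        simp only [hG]
        rw [intervalIntegral.integral_interval_sub_left (cg.intervalIntegrable _ _)
          (cg.intervalIntegrable _ _)]
      unfold E
      rw [add_sub_cancel]
      linarith)
  obtain ⟨i1, i2, i3, i4⟩ := K.ins D rfl hcr (hσ.trans_lt hE)
  refine ⟨x, u, v, i1, i2, i3, i4, ?_, ?_⟩
  · obtain ⟨c1, c2, c3, c4⟩ := hcr
    simp only [hf', hg', cutm i1, cutm i2, cutm i3, cutm i4] at c1 c2 c3 c4
    exact ⟨c1, c2, c3, c4⟩
  · have m1 := (abs_le.1 (D.lipF x (x + u))).2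
    have m2 := (abs_le.1 (D.lipG (x + v) (x + u + v))).1
    rw [add_sub_cancel_left] at m1
    rw [show x + u + v - (x + v) = u by ring] at m2
    unfold E at hE
    linarith

end Pool.Agent.T2H16.SB
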