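import Pool.Agent.T2H16.SB.E

/-! Mountain pass argument. -/

set_option autoImplicit false
open Set Topology Metric

namespace Pool.Agent.T2H16.SB

variable {f g F G : ℝ → ℝ} {M : ℝ}

/-- data -/
structure Dat (f g F G : ℝ → ℝ) (M : ℝ) : Prop where
  cf : Continuous f
  cg : Continuous g
  hF : ∀ x, HasDerivAt F (f x) x
  hG : ∀ x, HasDerivAt G (g x) x
  bf : ∀ x, |f x| ≤ M
  bg : ∀ x, |g x| ≤ M
  uf : UniformContinuous f
  ug : UniformContinuous g

theorem lipF {F f : ℝ → ℝ} (hF : ∀ x, HasDerivAt F (f x) x) {B x y : ℝ}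
    (h : ∀ t ∈ uIcc x y, |f t| ≤ B) : |F y - F x| ≤ B * |y - x| := by
  have := Convex.norm_image_sub_le_of_norm_hasDerivWithin_le (f := F) (f' := f) (s := uIcc x y)
    (x := x) (y := y) (C := B) (fun t _ => (hF t).hasDerivWithinAt)
    (fun t ht => by rw [Real.norm_eq_abs]; exact h t ht) (convex_uIcc x y) left_mem_uIcc
    right_mem_uIcc
  simpa [Real.norm_eq_abs] using this

theorem Dat.lipF (D : Dat f g F G M) (x y : ℝ) : |F y - F x| ≤ M * |y - x| :=
  SB.lipF D.hF fun t _ => D.bf t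

theorem Dat.lipG (D : Dat f g F G M) (x y : ℝ) : |G y - G x| ≤ M * |y - x| :=
  SB.lipF D.hG fun t _ => D.bg t

theorem Dat.M0 (D : Dat f g F G M) : 0 ≤ M := (abs_nonneg _).trans (D.bf 0)

theorem Dat.E0 (D : Dat f g F G M) (x u : ℝ) : E F G x u 0 ≤ 2 * M ^ 2 := by
  have h1 := (abs_le.1 (D.lipF x (x + u))).2
  have h2 := (abs_le.1 (D.lipG x (x + u))).1
  rw [add_sub_cancel_left] at h1 h2
  have e : E F G x u 0 = (F (x + u) - F x) - (G (x + u) - G x) - u ^ 2 / 2 := by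
    unfold E; rw [add_zero, add_zero]; ring
  rw [e]
  have h3 := sq_nonneg (|u| - 2 * M)
  have h4 := sq_abs u
  nlinarith

theorem Dat.Ev (D : Dat f g F G M) (x u v : ℝ) :
    v ^ 2 / 2 - 2 * M * |u| - u ^ 2 / 2 ≤ E F G x u v := by
  have h1 := (abs_le.1 (D.lipF x (x + u))).1
  have h2 := (abs_le.1 (D.lipG (x + v) (x + u + v))).2
  rw [add_sub_cancel_left] at h1
  rw [show x + u + v - (x + v) = u by ring] at h2
  unfold E
  linarith

theorem Dat.contF (D : Dat f g F G M) : Continuous F :=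
  continuous_iff_continuousAt.2 fun x => (D.hF x).continuousAt
theorem Dat.contG (D : Dat f g F G M) : Continuous G :=
  continuous_iff_continuousAt.2 fun x => (D.hG x).continuousAt

theorem Dat.cE (D : Dat f g F G M) : Continuous fun p : ℝ × ℝ × ℝ => E F G p.1 p.2.1 p.2.2 := by
  have h1 := D.contF
  have h2 := D.contG
  unfold E; fun_prop
theorem Dat.cgx (D : Dat f g F G M) : Continuous fun p : ℝ × ℝ × ℝ => gx f g p.1 p.2.1 p.2.2 := by
  have h1 := D.cf
  have h2 := D.cg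
  unfold gx; fun_prop
theorem Dat.cgu (D : Dat f g F G M) : Continuous fun p : ℝ × ℝ × ℝ => gu f g p.1 p.2.1 p.2.2 := by
  have h1 := D.cf
  have h2 := D.cg
  unfold gu; fun_prop
theorem Dat.cgv (D : Dat f g F G M) : Continuous fun p : ℝ × ℝ × ℝ => gv g p.1 p.2.1 p.2.2 := by
  have h2 := D.cg
  unfold gv; fun_prop
theorem Dat.cS (D : Dat f g F G M) : Continuous fun p : ℝ × ℝ × ℝ => S f g p.1 p.2.1 p.2.2 := by
  have h1 := D.cgx
  have h2 := D.cgu
  have h3 := D.cgv
  unfold S; fun_prop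

theorem Dat.unif (D : Dat f g F G M) {ω : ℝ} (hω : 0 < ω) : ∃ δ > 0, ∀ x u v α β γ : ℝ,
    |α| ≤ δ → |β| ≤ δ → |γ| ≤ δ →
    |gx f g (x + α) (u + β) (v + γ) - gx f g x u v| ≤ ω ∧
      |gu f g (x + α) (u + β) (v + γ) - gu f g x u v| ≤ ω ∧
      |gv g (x + α) (u + β) (v + γ) - gv g x u v| ≤ ω := by
  obtain ⟨δ1, hδ1, h1⟩ := Metric.uniformContinuous_iff.1 D.uf (ω / 5) (by positivity)
  obtain ⟨δ2, hδ2, h2⟩ := Metric.uniformContinuous_iff.1 D.ug (ω / 5) (by positivity)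
  simp only [Real.dist_eq] at h1 h2
  refine ⟨min (min δ1 δ2 / 4) (ω / 5), by positivity, ?_⟩
  intro x u v α β γ hα hβ hγ
  have m1 : min (min δ1 δ2 / 4) (ω / 5) ≤ min δ1 δ2 / 4 := min_le_left _ _
  have m2 : min (min δ1 δ2 / 4) (ω / 5) ≤ ω / 5 := min_le_right _ _
  have m3 := min_le_left δ1 δ2
  have m4 := min_le_right δ1 δ2
  have m5 : 0 < min δ1 δ2 := lt_min hδ1 hδ2
  rw [abs_le] at hα hβ hγ
  have f1 := abs_lt.1 (h1 (a := x + α + (u + β)) (b := x + u) (by rw [abs_lt]; constructor <;> linarith))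
  have f2 := abs_lt.1 (h1 (a := x + α) (b := x) (by rw [abs_lt]; constructor <;> linarith))
  have g1 := abs_lt.1 (h2 (a := x + α + (u + β) + (v + γ)) (b := x + u + v)
    (by rw [abs_lt]; constructor <;> linarith))
  have g2 := abs_lt.1 (h2 (a := x + α + (v + γ)) (b := x + v) (by rw [abs_lt]; constructor <;> linarith))
  unfold gx gu gv
  refine ⟨?_, ?_, ?_⟩ <;> rw [abs_le] <;> constructor <;> linarith

/-- clamp -/
noncomputable def cl (x : ℝ) : ℝ := max 0 (min 1 x)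

theorem cl_cont : Continuous cl := by unfold cl; fun_prop
theorem cl_nn (x : ℝ) : 0 ≤ cl x := le_max_left _ _
theorem cl_le (x : ℝ) : cl x ≤ 1 := max_le zero_le_one (min_le_left _ _)
theorem cl0 {x : ℝ} (h : x ≤ 0) : cl x = 0 := by
  unfold cl; exact max_eq_left ((min_le_right _ _).trans h)
theorem cl1 {x : ℝ} (h : 1 ≤ x) : cl x = 1 := by
  unfold cl; rw [min_eq_left h]; exact max_eq_right zero_le_one
theorem clm {x : ℝ} (h : 0 ≤ x) (h' : x ≤ 1) : cl x = x := by
  unfold cl; rw [min_eq_right h', max_eq_right h]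

/-- mountain pass -/
theorem Dat.mp (D : Dat f g F G M) {x0 u0 m0 m1 η : ℝ} (hm : ∀ v, m0 ≤ E F G x0 u0 v) (hη : 0 < η)
    (h : m1 < m0) (hS : ∀ x u v, m1 ≤ E F G x u v → η ^ 2 ≤ S f g x u v) : False := by
  have hM := D.M0
  obtain ⟨T, hT⟩ : ∃ T, T = 2 * M ^ 2 + 2 := ⟨_, rfl⟩
  obtain ⟨V, hV⟩ : ∃ V, V = 2 * (T + 2 * M * |u0| + u0 ^ 2 / 2) + 1 := ⟨_, rfl⟩
  have V1 : 1 ≤ V := by
    have : 0 ≤ T + 2 * M * |u0| + u0 ^ 2 / 2 := by rw [hT]; positivity
    linarith
  have V2 : T + 2 * M * |u0| + u0 ^ 2 / 2 ≤ V ^ 2 / 2 := by nlinarith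
  have EV : ∀ v, v ^ 2 = V ^ 2 → T ≤ E F G x0 u0 v := by
    intro v hv
    have := D.Ev x0 u0 v
    rw [hv] at this
    linarith
  set P : Set ℝ := {m | ∃ γ : ℝ → ℝ × ℝ × ℝ, Continuous γ ∧ γ 0 = (x0, u0, -V) ∧
    γ 1 = (x0, u0, V) ∧ ∀ s ∈ Icc (0:ℝ) 1, m ≤ E F G (γ s).1 (γ s).2.1 (γ s).2.2} with hP
  have hm0 : m0 ∈ P := by
    refine ⟨fun s => (x0, u0, -V + 2 * V * s), by fun_prop, ?_, ?_, fun s _ => hm _⟩
    · simp
    · simp; ring
  have hub : ∀ m ∈ P, m ≤ 2 * M ^ 2 := by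
    rintro m ⟨γ, hγ, h0, h1, hb⟩
    obtain ⟨s, hs, e⟩ := intermediate_value_Icc (zero_le_one (α := ℝ))
      (f := fun s => (γ s).2.2) (by fun_prop) (show (0:ℝ) ∈ Icc _ _ from
        ⟨by simp only [h0]; linarith, by simp only [h1]; linarith⟩)
    have := hb s hs
    simp only at e
    rw [e] at this
    exact this.trans (D.E0 _ _)
  have hbdd : BddAbove P := ⟨_, fun m hm => hub m hm⟩
  obtain ⟨c, hc⟩ : ∃ c, c = sSup P := ⟨_, rfl⟩
  have c1 : m0 ≤ c := hc ▸ le_csSup hbdd hm0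
  have c2 : c ≤ 2 * M ^ 2 := hc ▸ csSup_le ⟨m0, hm0⟩ hub
  obtain ⟨t, ht, hu⟩ := D.unif (ω := η / 6) (by positivity)
  obtain ⟨r, hr⟩ : ∃ r, r = t * (η ^ 2 / (2 * (1 + η ^ 2))) := ⟨_, rfl⟩
  have r0 : 0 < r := by rw [hr]; positivity
  obtain ⟨m, hmP, hmc⟩ := exists_lt_of_lt_csSup ⟨m0, hm0⟩
    (show max (c - r) m1 < sSup P by rw [← hc]; exact max_lt (by linarith) (by linarith))
  have k1 := (le_max_left _ _).trans_lt hmc
  have k2 := (le_max_right _ _).trans_lt hmc
  obtain ⟨γ, hγ, h0, h1, hb⟩ := hmP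
  -- the new path
  set e : ℝ → ℝ := fun s => E F G (γ s).1 (γ s).2.1 (γ s).2.2 with he
  set A : ℝ → ℝ := fun s => gx f g (γ s).1 (γ s).2.1 (γ s).2.2 with hA
  set B : ℝ → ℝ := fun s => gu f g (γ s).1 (γ s).2.1 (γ s).2.2 with hB
  set C : ℝ → ℝ := fun s => gv g (γ s).1 (γ s).2.1 (γ s).2.2 with hC
  set q : ℝ → ℝ := fun s => A s ^ 2 + B s ^ 2 + C s ^ 2 with hq
  have ce : Continuous e := D.cE.comp hγ
  have cA : Continuous A := D.cgx.comp hγ
  have cB : Continuous B := D.cgu.comp hγ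
  have cC : Continuous C := D.cgv.comp hγ
  have cq : Continuous q := by rw [hq]; fun_prop
  have q0 : ∀ s, 0 ≤ q s := fun s => by simp only [hq]; positivity
  have q1 : ∀ s, 1 + q s ≠ 0 := fun s => by have := q0 s; positivity
  set k : ℝ → ℝ := fun s => t * cl (T - e s) with hk
  have ck : Continuous k := by
    have := cl_cont
    rw [hk]; fun_prop
  set γ' : ℝ → ℝ × ℝ × ℝ := fun s => ((γ s).1 + k s * (A s / (1 + q s)),
    (γ s).2.1 + k s * (B s / (1 + q s)), (γ s).2.2 + k s * (C s / (1 + q s))) with hγ'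
  have cγ' : Continuous γ' := by
    rw [hγ']
    refine Continuous.prodMk ?_ (Continuous.prodMk ?_ ?_)
    · exact (continuous_fst.comp hγ).add (ck.mul (cA.div (by fun_prop) q1))
    · exact ((continuous_fst.comp continuous_snd).comp hγ).add
        (ck.mul (cB.div (by fun_prop) q1))
    · exact ((continuous_snd.comp continuous_snd).comp hγ).add
        (ck.mul (cC.div (by fun_prop) q1))
  have hend : ∀ s, T ≤ e s → γ' s = γ s := by
    intro s hs
    simp only [hγ', hk]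
    rw [cl0 (by linarith)]
    simp
  have e0 : T ≤ e 0 := by simp only [he, h0]; exact EV _ (by ring)
  have e1 : T ≤ e 1 := by simp only [he, h1]; exact EV _ rfl
  have small : ∀ s (a : ℝ), a ^ 2 ≤ q s → |k s * (a / (1 + q s))| ≤ t := by
    intro s a ha
    have h2 := q0 s
    have h3 : |a| ≤ 1 + q s := by
      have := sq_nonneg (|a| - 1)
      have h4 := sq_abs a
      nlinarith [abs_nonneg a]
    rw [abs_mul, abs_div, abs_of_pos (by linarith : 0 < 1 + q s)]
    have h5 : |k s| ≤ t := by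
      simp only [hk]
      rw [abs_of_nonneg (mul_nonneg ht.le (cl_nn _))]
      exact mul_le_of_le_one_right ht.le (cl_le _)
    have h6 : |a| / (1 + q s) ≤ 1 := by
      rw [div_le_one (by linarith)]; exact h3
    calc |k s| * (|a| / (1 + q s)) ≤ t * 1 := mul_le_mul h5 h6 (by positivity) ht.le
      _ = t := mul_one t
  have gain : ∀ s ∈ Icc (0:ℝ) 1, e s + k s * (η ^ 2 / (2 * (1 + η ^ 2))) ≤
      E F G (γ' s).1 (γ' s).2.1 (γ' s).2.2 := by
    intro s hs
    have hSs := hS _ _ _ (k2.le.trans (hb s hs))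
    have hk0 : 0 ≤ k s := mul_nonneg ht.le (cl_nn _)
    have i1 := ascent (A := A s) (B := B s) (C := C s) (t := k s) hη rfl hk0 hSs
    have sA := small s (A s) (by simp only [hq]; nlinarith [sq_nonneg (B s), sq_nonneg (C s)])
    have sB := small s (B s) (by simp only [hq]; nlinarith [sq_nonneg (A s), sq_nonneg (C s)])
    have sC := small s (C s) (by simp only [hq]; nlinarith [sq_nonneg (A s), sq_nonneg (B s)])
    have i2 := E_step D.hF D.hG (x := (γ s).1) (u := (γ s).2.1) (v := (γ s).2.2)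
      (α := k s * (A s / (1 + q s))) (β := k s * (B s / (1 + q s)))
      (γ := k s * (C s / (1 + q s))) (ω := η / 6) (fun s' hs' => by
        refine hu _ _ _ _ _ _ ?_ ?_ ?_ <;> rw [abs_mul, abs_of_nonneg hs'.1]
        · exact (mul_le_of_le_one_left (abs_nonneg _) hs'.2).trans sA
        · exact (mul_le_of_le_one_left (abs_nonneg _) hs'.2).trans sB
        · exact (mul_le_of_le_one_left (abs_nonneg _) hs'.2).trans sC)
    have i3 : e s + (A s * (k s * (A s / (1 + q s))) + B s * (k s * (B s / (1 + q s))) +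
        C s * (k s * (C s / (1 + q s)))) - η / 6 * (|k s * (A s / (1 + q s))| +
        |k s * (B s / (1 + q s))| + |k s * (C s / (1 + q s))|) ≤
        E F G (γ' s).1 (γ' s).2.1 (γ' s).2.2 := i2
    linarith
  have hnew : min (m + r) (c + 1) ∈ P := by
    refine ⟨γ', cγ', by rw [hend 0 e0, h0], by rw [hend 1 e1, h1], fun s hs => ?_⟩
    have hg := gain s hs
    have hbs := hb s hs
    have hbs' : m ≤ e s := hbs
    rcases le_total (e s) (T - 1) with h | h
    · have hk1 : k s = t := by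
        simp only [hk]
        rw [cl1 (by linarith), mul_one]
      rw [hk1, ← hr] at hg
      exact (min_le_left _ _).trans (by linarith)
    · have hk0 : 0 ≤ k s * (η ^ 2 / (2 * (1 + η ^ 2))) :=
        mul_nonneg (mul_nonneg ht.le (cl_nn _)) (by positivity)
      refine (min_le_right _ _).trans ?_
      linarith
  have := hc ▸ le_csSup hbdd hnew
  rcases min_le_iff.1 this with h | h <;> linarith

end Pool.Agent.T2H16.SB
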