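import Pool.Agent.T2H16.SB.MP

/-! Squares between two graphs. -/

set_option autoImplicit false
open Set Topology Metric

namespace Pool.Agent.T2H16.SB

variable {f g F G : ℝ → ℝ} {M k ε σ : ℝ}

/-- the equations of an inscribed square -/
structure Crit (f g : ℝ → ℝ) (x u v : ℝ) : Prop where
  e1 : f (x + u) - f x = v
  e2 : g (x + u + v) - g (x + v) = v
  e3 : f x - g (x + v) = u
  e4 : f (x + u) - g (x + u + v) = u

theorem crit_of_S {x u v : ℝ} (h : S f g x u v = 0) : Crit f g x u v := by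
  unfold S at h
  have q1 := sq_nonneg (gx f g x u v)
  have q2 := sq_nonneg (gu f g x u v)
  have q3 := sq_nonneg (gv g x u v)
  have h1 : gx f g x u v = 0 := by
    refine pow_eq_zero_iff two_ne_zero |>.1 ?_
    linarith
  have h2 : gu f g x u v = 0 := by
    refine pow_eq_zero_iff two_ne_zero |>.1 ?_
    linarith
  have h3 : gv g x u v = 0 := by
    refine pow_eq_zero_iff two_ne_zero |>.1 ?_
    linarith
  unfold gx at h1
  unfold gu at h2
  unfold gv at h3
  constructor <;> linarith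

/-- small squares have a small value -/
theorem small_val (D : Dat f g F G M) (k0 : 0 ≤ k) (k1 : k < 1) (e0 : 0 ≤ ε)
    (hσ : σ = ε / (1 - k)) {d : ℝ → ℝ} (_d0 : ∀ y, 0 ≤ d y) (dl : ∀ y z, d y ≤ d z + |y - z|)
    (hf : ∀ y, |f y| ≤ ε + k * d y) (hg : ∀ y, |g y| ≤ ε + k * d y) {x u v : ℝ}
    (h : Crit f g x u v) (hp : d x = 0 ∨ d (x + u) = 0 ∨ d (x + v) = 0 ∨ d (x + u + v) = 0) :
    E F G x u v ≤ 18 * σ ^ 2 := by
  obtain ⟨e1, e2, e3, e4⟩ := h
  have hk : 0 < 1 - k := by linarith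
  have hε : ε = σ * (1 - k) := by rw [hσ]; field_simp
  have s0 : 0 ≤ σ := by rw [hσ]; positivity
  have bd : ∀ {y z r : ℝ}, d z = 0 → |y - z| ≤ r → |f y| ≤ ε + k * r ∧ |g y| ≤ ε + k * r := by
    intro y z r hz hr
    have h1 := dl y z
    rw [hz, zero_add] at h1
    have h2 := mul_le_mul_of_nonneg_left (h1.trans hr) k0
    exact ⟨(hf y).trans (by linarith), (hg y).trans (by linarith)⟩
  have b0 : ∀ {z : ℝ}, d z = 0 → |f z| ≤ ε ∧ |g z| ≤ ε := by
    intro z hz
    have h1 := hf z
    have h2 := hg z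
    rw [hz, mul_zero, add_zero] at h1 h2
    exact ⟨h1, h2⟩
  have tri : ∀ {a b c p q : ℝ}, a - b = c → |a| ≤ p → |b| ≤ q → |c| ≤ p + q := by
    intro a b c p q h h1 h2
    rw [← h]
    exact (abs_sub a b).trans (add_le_add h1 h2)
  have main : |u| ≤ 2 * ε + k * |v| ∧ |v| ≤ 2 * ε + k * |u| ∧ ∃ z, d z = 0 ∧
      |x - z| ≤ |u| + |v| ∧ |x + u - z| ≤ |u| + |v| ∧ |x + v - z| ≤ |u| + |v| ∧
      |x + u + v - z| ≤ |u| + |v| := by
    have a1 := le_abs_self u
    have a2 := neg_abs_le u
    have a3 := le_abs_self v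
    have a4 := neg_abs_le v
    have a5 := abs_nonneg u
    have a6 := abs_nonneg v
    rcases hp with hp | hp | hp | hp
    · have h1 := (b0 hp).1
      have h2 := (bd (y := x + v) hp (r := |v|) (by rw [add_sub_cancel_left])).2
      have h3 := (bd (y := x + u) hp (r := |u|) (by rw [add_sub_cancel_left])).1
      have t1 := tri e3 h1 h2
      have t2 := tri e1 h3 h1
      refine ⟨by linarith, by linarith, x, hp, ?_, ?_, ?_, ?_⟩ <;> rw [abs_le] <;>
        constructor <;> linarith
    · have h1 := (b0 hp).1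
      have h2 := (bd (y := x + u + v) hp (r := |v|) (by rw [add_sub_cancel_left])).2
      have h3 := (bd (y := x) hp (r := |u|) (by rw [sub_add_cancel_left, abs_neg])).1
      have t1 := tri e4 h1 h2
      have t2 := tri e1 h1 h3
      refine ⟨by linarith, by linarith, x + u, hp, ?_, ?_, ?_, ?_⟩ <;> rw [abs_le] <;>
        constructor <;> linarith
    · have h1 := (b0 hp).2
      have h2 := (bd (y := x) hp (r := |v|) (by rw [sub_add_cancel_left, abs_neg])).1
      have h3 := (bd (y := x + u + v) hp (r := |u|) (by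
        rw [show x + u + v - (x + v) = u by ring])).2
      have t1 := tri e3 h2 h1
      have t2 := tri e2 h3 h1
      refine ⟨by linarith, by linarith, x + v, hp, ?_, ?_, ?_, ?_⟩ <;> rw [abs_le] <;>
        constructor <;> linarith
    · have h1 := (b0 hp).2
      have h2 := (bd (y := x + u) hp (r := |v|) (by
        rw [sub_add_cancel_left, abs_neg])).1
      have h3 := (bd (y := x + v) hp (r := |u|) (by
        rw [show x + v - (x + u + v) = -u by ring, abs_neg])).2
      have t1 := tri e4 h2 h1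
      have t2 := tri e2 h1 h3
      refine ⟨by linarith, by linarith, x + u + v, hp, ?_, ?_, ?_, ?_⟩ <;> rw [abs_le] <;>
        constructor <;> linarith
  obtain ⟨i1, i2, z, hz, j1, j2, j3, j4⟩ := main
  have hu : |u| ≤ 2 * σ := by
    have : (1 - k) * ((1 + k) * |u|) ≤ (1 - k) * ((1 + k) * (2 * σ)) := by
      have := mul_le_mul_of_nonneg_left i2 k0
      rw [hε] at i1 this
      nlinarith
    exact le_of_mul_le_mul_left (le_of_mul_le_mul_left this hk) (by linarith)
  have hv : |v| ≤ 2 * σ := by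
    have : (1 - k) * ((1 + k) * |v|) ≤ (1 - k) * ((1 + k) * (2 * σ)) := by
      have := mul_le_mul_of_nonneg_left i1 k0
      rw [hε] at i2 this
      nlinarith
    exact le_of_mul_le_mul_left (le_of_mul_le_mul_left this hk) (by linarith)
  have near : ∀ {y a b : ℝ}, |a - z| ≤ |u| + |v| → |b - z| ≤ |u| + |v| → y ∈ uIcc a b →
      |f y| ≤ 4 * σ ∧ |g y| ≤ 4 * σ := by
    intro y a b ha hb hy
    have hyz : |y - z| ≤ 4 * σ := by
      rw [abs_le] at ha hb ⊢
      rcases le_total a b with h | h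
      · rw [uIcc_of_le h] at hy
        constructor <;> linarith [hy.1, hy.2]
      · rw [uIcc_of_ge h] at hy
        constructor <;> linarith [hy.1, hy.2]
    obtain ⟨h1, h2⟩ := bd hz hyz
    have h3 : ε + k * (4 * σ) ≤ 4 * σ := by rw [hε]; nlinarith [mul_nonneg k0 s0]
    exact ⟨h1.trans h3, h2.trans h3⟩
  have l1 := (abs_le.1 (lipF D.hF (x := x) (y := x + u) fun y hy => (near j1 j2 hy).1)).2
  have l2 := (abs_le.1 (lipF D.hG (x := x + v) (y := x + u + v)
    fun y hy => (near j3 j4 hy).2)).1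
  rw [add_sub_cancel_left] at l1
  rw [show x + u + v - (x + v) = u by ring] at l2
  have s1 := mul_le_mul_of_nonneg_left hu (by linarith : 0 ≤ 4 * σ)
  have s2 : v ^ 2 ≤ (2 * σ) ^ 2 := by
    rw [← sq_abs v]; exact pow_le_pow_left₀ (abs_nonneg v) hv 2
  unfold E
  nlinarith [sq_nonneg u]

/-- data of two graphs with double cones at the ends -/
structure Cn (f g : ℝ → ℝ) (k ε : ℝ) : Prop where
  k0 : 0 ≤ k
  k1 : k < 1
  e0 : 0 ≤ ε
  fl : ∀ y, y ≤ 0 → f y = f 0
  gl : ∀ y, y ≤ 0 → g y = g 0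
  fr : ∀ y, 1 ≤ y → f y = f 1
  gr : ∀ y, 1 ≤ y → g y = g 1
  bf : ∀ y, |f y| ≤ ε + k * max 0 y
  bg : ∀ y, |g y| ≤ ε + k * max 0 y
  bf' : ∀ y, |f y| ≤ ε + k * max 0 (1 - y)
  bg' : ∀ y, |g y| ≤ ε + k * max 0 (1 - y)

theorem Cn.ins (K : Cn f g k ε) (D : Dat f g F G M) (hσ : σ = ε / (1 - k)) {x u v : ℝ}
    (h : Crit f g x u v) (hE : 18 * σ ^ 2 < E F G x u v) :
    x ∈ Icc (0:ℝ) 1 ∧ x + u ∈ Icc (0:ℝ) 1 ∧ x + v ∈ Icc (0:ℝ) 1 ∧ x + u + v ∈ Icc (0:ℝ) 1 := by
  have left : ∀ {p : ℝ}, p ≤ 0 → max 0 p = 0 := fun h => max_eq_left h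
  have hL : ¬ (max 0 x = 0 ∨ max 0 (x + u) = 0 ∨ max 0 (x + v) = 0 ∨ max 0 (x + u + v) = 0) :=
    fun hp => absurd (small_val D K.k0 K.k1 K.e0 hσ (d := fun y => max 0 y)
      (fun y => le_max_left _ _) (fun y z => by
        have h1 := le_abs_self (y - z)
        have h2 := abs_nonneg (y - z)
        have h3 := le_max_left 0 z
        have h4 := le_max_right 0 z
        exact max_le (by linarith) (by linarith)) K.bf K.bg h hp) (not_le.2 hE)
  have hR : ¬ (max 0 (1 - x) = 0 ∨ max 0 (1 - (x + u)) = 0 ∨ max 0 (1 - (x + v)) = 0 ∨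
      max 0 (1 - (x + u + v)) = 0) :=
    fun hp => absurd (small_val D K.k0 K.k1 K.e0 hσ (d := fun y => max 0 (1 - y))
      (fun y => le_max_left _ _) (fun y z => by
        have h1 := neg_abs_le (y - z)
        have h2 := abs_nonneg (y - z)
        have h3 := le_max_left 0 (1 - z)
        have h4 := le_max_right 0 (1 - z)
        exact max_le (by linarith) (by linarith)) K.bf' K.bg' h hp) (not_le.2 hE)
  push Not at hL hR
  obtain ⟨l1, l2, l3, l4⟩ := hL
  obtain ⟨r1, r2, r3, r4⟩ := hR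
  have hl : ∀ {p : ℝ}, max 0 p ≠ 0 → 0 ≤ p := fun h => by
    by_contra hc
    push Not at hc
    exact h (max_eq_left hc.le)
  refine ⟨⟨hl l1, ?_⟩, ⟨hl l2, ?_⟩, ⟨hl l3, ?_⟩, ⟨hl l4, ?_⟩⟩
  · have := hl r1; linarith
  · have := hl r2; linarith
  · have := hl r3; linarith
  · have := hl r4; linarith

/-- values far away -/
theorem far_val (D : Dat f g F G M) {p q x u v : ℝ} (hf : ∀ t ∈ uIcc x (x + u), f t = p)
    (hg : ∀ t ∈ uIcc (x + v) (x + u + v), g t = q) :
    E F G x u v = (p - q) * u - u ^ 2 / 2 + v ^ 2 / 2 := by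
  have l1 := lipF (F := fun t => F t - p * t) (f := fun t => f t - p)
    (fun t => ((D.hF t).sub ((hasDerivAt_id t).const_mul p)).congr_deriv (by ring)) (B := 0) (x := x) (y := x + u) (fun t ht => by
      rw [hf t ht]; simp)
  have l2 := lipF (F := fun t => G t - q * t) (f := fun t => g t - q)
    (fun t => ((D.hG t).sub ((hasDerivAt_id t).const_mul q)).congr_deriv (by ring)) (B := 0) (x := x + v) (y := x + u + v) (fun t ht => by
      rw [hg t ht]; simp)
  rw [zero_mul] at l1 l2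
  have m1 := abs_nonpos_iff.1 l1
  have m2 := abs_nonpos_iff.1 l2
  unfold E
  linarith

theorem Cn.ps (K : Cn f g k ε) (D : Dat f g F G M) (hσ : σ = ε / (1 - k)) {m1 : ℝ}
    (hm : 18 * σ ^ 2 < m1) (hno : ∀ x u v, m1 ≤ E F G x u v → S f g x u v ≠ 0) :
    ∃ η > 0, ∀ x u v, m1 ≤ E F G x u v → η ^ 2 ≤ S f g x u v := by
  have hM := D.M0
  have hk : 0 < 1 - k := by linarith [K.k1]
  have hε : ε = σ * (1 - k) := by rw [hσ]; field_simp
  have s0 : 0 ≤ σ := by rw [hσ]; exact div_nonneg K.e0 hk.le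
  have hεσ : ε ≤ σ := by rw [hε]; nlinarith [K.k0]
  obtain ⟨R, hR⟩ : ∃ R, R = 2 * M + 1 := ⟨_, rfl⟩
  set B : Set (ℝ × ℝ × ℝ) := (Icc (-2 * R) (1 + 2 * R) ×ˢ Icc (-R) R ×ˢ Icc (-R) R) ∩
    {p | m1 ≤ E F G p.1 p.2.1 p.2.2} with hB
  have cB : IsCompact B := by
    refine IsCompact.inter_right ?_ (isClosed_le continuous_const D.cE)
    exact isCompact_Icc.prod (isCompact_Icc.prod isCompact_Icc)
  obtain ⟨κ, hκ, hκB⟩ : ∃ κ > 0, ∀ p ∈ B, κ ≤ S f g p.1 p.2.1 p.2.2 := by
    rcases B.eq_empty_or_nonempty with h | h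
    · exact ⟨1, one_pos, fun p hp => by rw [h] at hp; exact absurd hp (notMem_empty p)⟩
    · obtain ⟨p, hp, hmin⟩ := cB.exists_isMinOn h D.cS.continuousOn
      refine ⟨S f g p.1 p.2.1 p.2.2, ?_, fun q hq => hmin hq⟩
      exact lt_of_le_of_ne (S_nonneg _ _ _) (hno _ _ _ hp.2).symm
  refine ⟨√(min 1 (min κ (2 * (m1 - 18 * σ ^ 2)))), by
    have : 0 < 2 * (m1 - 18 * σ ^ 2) := by linarith
    positivity, ?_⟩
  intro x u v hE
  rw [Real.sq_sqrt (by
    have : 0 < 2 * (m1 - 18 * σ ^ 2) := by linarith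
    positivity)]
  have s1 : gu f g x u v ^ 2 ≤ S f g x u v := by
    unfold S; nlinarith [sq_nonneg (gx f g x u v), sq_nonneg (gv g x u v)]
  have s2 : gv g x u v ^ 2 ≤ S f g x u v := by
    unfold S; nlinarith [sq_nonneg (gx f g x u v), sq_nonneg (gu f g x u v)]
  by_cases hu : |u| ≤ R
  · by_cases hv : |v| ≤ R
    · rw [abs_le] at hu hv
      have far : ∀ {p q : ℝ}, |p| ≤ ε → |q| ≤ ε → (∀ t ∈ uIcc x (x + u), f t = p) →
          (∀ t ∈ uIcc (x + v) (x + u + v), g t = q) → 2 * (m1 - 18 * σ ^ 2) ≤ S f g x u v := by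
        intro p q hp hq h1 h2
        have e := far_val D h1 h2
        have e3 : gv g x u v = v := by
          unfold gv
          rw [h2 _ left_mem_uIcc, h2 _ right_mem_uIcc]; ring
        rw [e3] at s2
        rw [e] at hE
        have h5 : (p - q) ^ 2 ≤ (2 * σ) ^ 2 := by
          rw [← sq_abs]
          refine pow_le_pow_left₀ (abs_nonneg _) ?_ 2
          exact (abs_sub p q).trans (by linarith)
        nlinarith [sq_nonneg (p - q - u)]
      by_cases hx : -2 * R ≤ x
      · by_cases hx' : x ≤ 1 + 2 * R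
        · refine (min_le_right _ _).trans ((min_le_left _ _).trans ?_)
          exact hκB (x, u, v) ⟨⟨⟨hx, hx'⟩, ⟨hu.1, hu.2⟩, hv.1, hv.2⟩, hE⟩
        · push Not at hx'
          refine (min_le_right _ _).trans ((min_le_right _ _).trans ?_)
          have b1 := K.bf' 1
          have b2 := K.bg' 1
          simp only [sub_self, max_self, mul_zero, add_zero] at b1 b2
          refine far b1 b2 (fun t ht => K.fr t ?_) (fun t ht => K.gr t ?_)
          · have := ht.1
            rcases min_le_iff.1 this with h | h <;> linarith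
          · have := ht.1
            rcases min_le_iff.1 this with h | h <;> linarith
      · push Not at hx
        refine (min_le_right _ _).trans ((min_le_right _ _).trans ?_)
        have b1 := K.bf 0
        have b2 := K.bg 0
        simp only [max_self, mul_zero, add_zero] at b1 b2
        refine far b1 b2 (fun t ht => K.fl t ?_) (fun t ht => K.gl t ?_)
        · have := ht.2
          rcases le_max_iff.1 this with h | h <;> linarith
        · have := ht.2
          rcases le_max_iff.1 this with h | h <;> linarith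
    · push Not at hv
      refine (min_le_left _ _).trans (le_trans ?_ s2)
      have h1 := abs_le.1 (D.bg (x + u + v))
      have h2 := abs_le.1 (D.bg (x + v))
      have h3 : 1 ≤ |gv g x u v| := by
        unfold gv
        rcases le_total 0 v with h | h
        · rw [abs_of_nonneg h] at hv
          refine le_trans ?_ (le_abs_self _); linarith
        · rw [abs_of_nonpos h] at hv
          refine le_trans ?_ (neg_le_abs _); linarith
      rw [← sq_abs]; nlinarith
  · push Not at hu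
    refine (min_le_left _ _).trans (le_trans ?_ s1)
    have h1 := abs_le.1 (D.bf (x + u))
    have h2 := abs_le.1 (D.bg (x + u + v))
    have h3 : 1 ≤ |gu f g x u v| := by
      unfold gu
      rcases le_total 0 u with h | h
      · rw [abs_of_nonneg h] at hu
        refine le_trans ?_ (neg_le_abs _); linarith
      · rw [abs_of_nonpos h] at hu
        refine le_trans ?_ (le_abs_self _); linarith
    rw [← sq_abs]; nlinarith

/-- existence of a square -/
theorem Cn.exists (K : Cn f g k ε) (D : Dat f g F G M) (hσ : σ = ε / (1 - k)) {x0 u0 κ : ℝ}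
    (hκ : 18 * σ ^ 2 ≤ κ) (h : ∀ v, κ < E F G x0 u0 v) :
    ∃ x u v, Crit f g x u v ∧ κ < E F G x u v := by
  by_contra hcon
  push Not at hcon
  have hM := D.M0
  have k0 : 0 ≤ κ := le_trans (by positivity) hκ
  obtain ⟨N, hN⟩ : ∃ N, N = 2 * M * |u0| + u0 ^ 2 / 2 + κ + 1 := ⟨_, rfl⟩
  have N1 : 1 ≤ N := by
    have : 0 ≤ 2 * M * |u0| + u0 ^ 2 / 2 + κ := by positivity
    linarith
  have cE := D.cE
  obtain ⟨v0, hv0, hmin⟩ := (isCompact_Icc (a := -(2 * N)) (b := 2 * N)).exists_isMinOn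
    ⟨0, by constructor <;> linarith⟩ (f := fun v => E F G x0 u0 v)
    (Continuous.continuousOn (D.cE.comp (g := fun p : ℝ × ℝ × ℝ => E F G p.1 p.2.1 p.2.2)
      (f := fun v : ℝ => ((x0, u0, v) : ℝ × ℝ × ℝ)) (by fun_prop)))
  obtain ⟨m0, hm0⟩ : ∃ m0, m0 = min (E F G x0 u0 v0) (κ + 1) := ⟨_, rfl⟩
  have m0' : κ < m0 := by rw [hm0]; exact lt_min (h v0) (by linarith)
  have hall : ∀ v, m0 ≤ E F G x0 u0 v := by
    intro v
    by_cases hv : v ∈ Icc (-(2 * N)) (2 * N)
    · rw [hm0]
      exact (min_le_left _ _).trans (hmin hv)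
    · have := D.Ev x0 u0 v
      have hv2 : (2 * N) ^ 2 ≤ v ^ 2 := by
        rw [← sq_abs v]
        refine pow_le_pow_left₀ (by linarith) ?_ 2
        by_contra hc
        push Not at hc
        exact hv ⟨by linarith [neg_abs_le v], by linarith [le_abs_self v]⟩
      rw [hm0]
      refine (min_le_right _ _).trans ?_
      nlinarith
  have hno : ∀ x u v, (κ + m0) / 2 ≤ E F G x u v → S f g x u v ≠ 0 := by
    intro x u v hE h0
    have := hcon x u v (crit_of_S h0)
    linarith
  obtain ⟨η, hη, hS⟩ := K.ps D hσ (m1 := (κ + m0) / 2) (by linarith) hno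
  exact D.mp hall hη (by linarith) hS

end Pool.Agent.T2H16.SB
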